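import Mathlib

/-!
# A finitely generated nilpotent torsion group is finite
-/

set_option autoImplicit false

namespace Pool.Agent.Helper45.AN

universe u

/-- a finitely generated solvable torsion group is finite -/
theorem finite_of_solvable (G : Type u) [Group G] (hfg : Group.FG G) [hs : Group.IsSolvable G]
    (ht : ∀ g : G, ∃ k : ℕ, 0 < k ∧ g ^ k = 1) : Finite G := by
  have key : ∀ n : ℕ, (derivedSeries G n).FiniteIndex := by
    intro n
    induction n with
    | zero => rw [derivedSeries_zero]; infer_instance
    | succ n ih =>
      set H := derivedSeries G n with hH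
      have hHfg : Group.FG H := inferInstance
      have hab : Group.FG (Abelianization H) :=
        Group.fg_of_surjective (f := Abelianization.of) QuotientGroup.mk_surjective
      have htor : IsMulTorsion (Abelianization H) := by
        intro x
        obtain ⟨h, hx⟩ : ∃ h : H, Abelianization.of h = x := QuotientGroup.mk_surjective x
        obtain ⟨k, hk, hk1⟩ := ht h
        refine isOfFinOrder_iff_pow_eq_one.2 ⟨k, hk, ?_⟩
        have : h ^ k = 1 := Subtype.ext (by simpa using hk1)
        rw [← hx, ← map_pow, this, map_one]
      have hfin : Finite (Abelianization H) := CommGroup.finite_of_fg_isMulTorsion _ htor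
      have hci : (commutator H).FiniteIndex := by
        have : Finite (H ⧸ commutator H) := hfin
        exact Subgroup.finiteIndex_of_finite_quotient
      have h1 : (commutator H).map H.subtype = derivedSeries G (n + 1) := by
        rw [derivedSeries_succ, ← hH, Subgroup.map_subtype_commutator]
      constructor
      rw [← h1, Subgroup.index_map_subtype]
      exact mul_ne_zero hci.index_ne_zero ih.index_ne_zero
  obtain ⟨n, hn⟩ := Group.IsSolvable.solvable (G := G)
  have h2 := key n
  rw [hn] at h2
  have h3 := h2.index_ne_zero
  rw [Subgroup.index_bot] at h3
  exact Nat.finite_of_card_ne_zero h3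

theorem ftn (G : Type u) [Group G] (hfg : Group.FG G) (hn : Group.IsNilpotent G)
    (ht : ∀ g : G, ∃ k : ℕ, 0 < k ∧ g ^ k = 1) : Finite G :=
  finite_of_solvable G hfg ht

end Pool.Agent.Helper45.AN
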